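import Mathlib
import Pool.Agent.Helper84_EGF.Main4

/-! The upper bound `log F(p, k) = o(k)` for every `p ≥ 4`. -/

namespace Pool.Agent.Results.MP_1090a0_co.SublinearUpper

open Pool.Agent.Helper73_EG

/-- For every `p ≥ 4` and every `ε > 0` there is `k₀` such that for all `k ≥ k₀` and all
`n ≥ exp (ε k)` each `k`-edge-colouring of `K_n` contains a `K_p` with at most `p - 2` colours. -/
theorem result : ∀ p : ℕ, 4 ≤ p → ∀ ε : ℝ, 0 < ε → ∃ k₀ : ℕ, ∀ k : ℕ, k₀ ≤ k → ∀ n : ℕ,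
    Real.exp (ε * k) ≤ n → Forces p k n :=
  Pool.Agent.EGF.H84.S.main4

end Pool.Agent.Results.MP_1090a0_co.SublinearUpper
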